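import Mathlib

namespace Pool.Agent.Results.MP_33ac70_nt.Counter

open MeasureTheory Filter

/-- block index -/
def idx (m : ℕ) : ℕ := Nat.sqrt (Nat.log 2 m)

/-- tolerance -/
noncomputable def psi (m : ℕ) : ℝ :=
  if m < 2 ^ (idx m * idx m) + 2 ^ idx m then (1 / 2 : ℝ) ^ idx m else 0

lemma psi_nonneg (m : ℕ) : 0 ≤ psi m := by
  unfold psi; split_ifs <;> positivity

lemma psi_le (m : ℕ) : psi m ≤ 1 := by
  unfold psi; split_ifs
  · exact pow_le_one₀ (by norm_num) (by norm_num)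
  · norm_num

lemma idx_block (i m : ℕ) (h1 : 2 ^ (i * i) ≤ m) (h2 : m < 2 ^ (i * i) + 2 ^ i) : idx m = i := by
  have h3 : 2 ^ i ≤ 2 ^ (i * i) := Nat.pow_le_pow_right (by norm_num) (Nat.le_mul_self i)
  have h4 : Nat.log 2 m = i * i := Nat.log_eq_of_pow_le_of_lt_pow h1 (by rw [pow_succ]; omega)
  rw [idx, h4, Nat.sqrt_eq]

lemma idx_le (m : ℕ) (hm : m ≠ 0) : 2 ^ (idx m * idx m) ≤ m :=
  (Nat.pow_le_pow_right (by norm_num) (Nat.sqrt_le _)).trans (Nat.pow_log_le_self 2 hm)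

lemma le_idx (i m : ℕ) (h : 2 ^ (i * i) ≤ m) : i ≤ idx m :=
  Nat.le_sqrt.2 (Nat.le_log_of_pow_le (by norm_num) h)

lemma not_summable : ¬ Summable psi := by
  intro h
  obtain ⟨s, hs⟩ := h.vanishing (e := Set.Iio 1) (Iio_mem_nhds one_pos)
  obtain ⟨i, hi⟩ := s.bddAbove
  have h1 : i < 2 ^ (i * i) :=
    lt_of_lt_of_le Nat.lt_two_pow_self (Nat.pow_le_pow_right (by norm_num) (Nat.le_mul_self i))
  have h2 := hs (Finset.Ico (2 ^ (i * i)) (2 ^ (i * i) + 2 ^ i)) (by
    rw [Finset.disjoint_left]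
    intro m hm hms
    have := hi hms
    have := (Finset.mem_Ico.1 hm).1
    omega)
  have h3 : ∑ m ∈ Finset.Ico (2 ^ (i * i)) (2 ^ (i * i) + 2 ^ i), psi m =
      ∑ m ∈ Finset.Ico (2 ^ (i * i)) (2 ^ (i * i) + 2 ^ i), (1 / 2 : ℝ) ^ i := by
    apply Finset.sum_congr rfl
    intro m hm
    obtain ⟨a1, a2⟩ := Finset.mem_Ico.1 hm
    rw [psi, idx_block i m a1 a2, if_pos a2]
  rw [h3] at h2
  simp at h2

/-- bad set at level `A` with tolerance `η` -/
def S (A : ℕ) (η : ℝ) : Set ℝ := {θ | θ < 1 ∧ ∃ b : ℕ, 1 ≤ b ∧ |(A : ℝ) ^ θ - b| ≤ η}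

lemma vol_S (A : ℕ) (hA : 16 ≤ A) (η : ℝ) (h0 : 0 ≤ η) (h1 : η ≤ 1 / 2) :
    volume (S A η) ≤ ENNReal.ofReal (8 * η) := by
  have hA' : (16 : ℝ) ≤ A := by exact_mod_cast hA
  have hlog : 1 ≤ Real.log A := by
    rw [Real.le_log_iff_exp_le (by linarith)]
    have := Real.exp_one_lt_d9
    linarith
  have hsub : S A η ⊆ ⋃ b ∈ Finset.range A, Set.Icc (Real.log (((b + 1 : ℕ) : ℝ) - η) / Real.log A)
      (Real.log (((b + 1 : ℕ) : ℝ) + η) / Real.log A) := by
    rintro θ ⟨hθ, b, hb, h⟩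
    rw [abs_le] at h
    have hb' : (1 : ℝ) ≤ b := by exact_mod_cast hb
    have h2 : (A : ℝ) ^ θ < A := by
      have := Real.rpow_lt_rpow_of_exponent_lt (x := (A : ℝ)) (by linarith) hθ
      rwa [Real.rpow_one] at this
    have h3 : b ≤ A := by
      have : (b : ℝ) < A + 1 := by linarith
      have : b < A + 1 := by exact_mod_cast this
      omega
    simp only [Set.mem_iUnion]
    refine ⟨b - 1, Finset.mem_range.2 (by omega), ?_⟩
    rw [show b - 1 + 1 = b by omega]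
    have h4 : Real.log ((A : ℝ) ^ θ) = θ * Real.log A := Real.log_rpow (by linarith) θ
    constructor
    · rw [div_le_iff₀ (by linarith), ← h4]
      exact Real.log_le_log (by linarith) (by linarith)
    · rw [le_div_iff₀ (by linarith), ← h4]
      exact Real.log_le_log (by positivity) (by linarith)
  refine (measure_mono hsub).trans ((measure_biUnion_finset_le _ _).trans ?_)
  have h5 : ∀ b ∈ Finset.range A, volume (Set.Icc
      (Real.log (((b + 1 : ℕ) : ℝ) - η) / Real.log A)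
      (Real.log (((b + 1 : ℕ) : ℝ) + η) / Real.log A)) ≤
      ENNReal.ofReal (4 * η / Real.log A * (((b + 1 : ℕ) : ℝ))⁻¹) := by
    intro b _
    rw [Real.volume_Icc]
    apply ENNReal.ofReal_le_ofReal
    have hb : (1 : ℝ) ≤ ((b + 1 : ℕ) : ℝ) := by exact_mod_cast Nat.le_add_left 1 b
    set x : ℝ := ((b + 1 : ℕ) : ℝ) with hx
    have h6 : Real.log (x + η) - Real.log (x - η) ≤ 4 * η * x⁻¹ := by
      rw [← Real.log_div (by linarith) (by linarith)]
      refine (Real.log_le_sub_one_of_pos (div_pos (by linarith) (by linarith))).trans ?_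
      rw [div_sub_one (by linarith), div_le_iff₀ (by linarith)]
      have h7 : 4 * η * x⁻¹ * (x - η) = 4 * η - 4 * η * (η / x) := by field_simp
      have h8 : η / x ≤ 1 / 2 := by
        rw [div_le_iff₀ (by linarith)]; linarith
      rw [h7]
      nlinarith
    rw [← sub_div, div_mul_eq_mul_div]
    exact div_le_div_of_nonneg_right h6 (by linarith)
  refine (Finset.sum_le_sum h5).trans ?_
  rw [← ENNReal.ofReal_sum_of_nonneg (fun b _ => by positivity)]
  apply ENNReal.ofReal_le_ofReal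
  rw [← Finset.mul_sum]
  have h9 : ∑ b ∈ Finset.range A, (((b + 1 : ℕ) : ℝ))⁻¹ ≤ 1 + Real.log A := by
    have := harmonic_le_one_add_log A
    rw [harmonic] at this
    push_cast at this ⊢
    exact this
  calc 4 * η / Real.log A * ∑ b ∈ Finset.range A, (((b + 1 : ℕ) : ℝ))⁻¹
      ≤ 4 * η / Real.log A * (2 * Real.log A) :=
        mul_le_mul_of_nonneg_left (by linarith) (by positivity)
    _ = 8 * η := by field_simp; ring

lemma ae_ev : ∀ᵐ θ : ℝ, ∀ᶠ i : ℕ in atTop,
    θ ∉ S (2 ^ ((i + 2) * (i + 2))) (2 * (1 / 2) ^ (i + 2)) := by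
  apply ae_eventually_notMem
  have h1 : ∀ i : ℕ, volume (S (2 ^ ((i + 2) * (i + 2))) (2 * (1 / 2) ^ (i + 2))) ≤
      ENNReal.ofReal (4 * (1 / 2) ^ i) := by
    intro i
    have h2 : (2 : ℝ) * (1 / 2) ^ (i + 2) = 1 / 2 * (1 / 2) ^ i := by ring
    have h3 : ((1 : ℝ) / 2) ^ i ≤ 1 := pow_le_one₀ (by norm_num) (by norm_num)
    refine (vol_S _ ?_ _ (by positivity) (by rw [h2]; linarith)).trans (le_of_eq ?_)
    · exact le_trans (by norm_num : 16 ≤ 2 ^ 4) (Nat.pow_le_pow_right (by norm_num) (by nlinarith))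
    · congr 1; ring
  refine ne_top_of_le_ne_top ?_ (ENNReal.tsum_le_tsum h1)
  rw [← ENNReal.ofReal_tsum_of_nonneg (fun i => by positivity)
    (summable_geometric_two.mul_left 4)]
  exact ENNReal.ofReal_ne_top

lemma ae_ne : ∀ᵐ θ : ℝ, ∀ a b : ℕ, 2 ≤ a → (a : ℝ) ^ θ ≠ b := by
  have h : (Set.range fun p : ℕ × ℕ => Real.log p.2 / Real.log p.1).Countable :=
    Set.countable_range _
  filter_upwards [h.ae_notMem volume] with θ hθ a b ha hab
  apply hθ
  refine ⟨(a, b), ?_⟩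
  have ha' : (2 : ℝ) ≤ a := by exact_mod_cast ha
  have h1 : 0 < Real.log a := Real.log_pos (by linarith)
  simp only
  rw [← hab, Real.log_rpow (by linarith)]
  field_simp

theorem result : ∃ ρ : ℕ → ℝ, (∀ m, 0 ≤ ρ m) ∧
    ¬ Summable (fun m : ℕ => ρ (m + 1) / ((m + 1 : ℕ) : ℝ)) ∧
    ∀ᵐ θ : ℝ, θ ∈ Set.Ioo (0 : ℝ) 1 →
      {p : ℕ × ℕ | 1 ≤ p.1 ∧ 1 ≤ p.2 ∧
        |(p.1 : ℝ) ^ θ - (p.2 : ℝ)| ≤ ρ p.1 / (p.1 : ℝ)}.Finite := by
  refine ⟨fun m => m * psi m, fun m => mul_nonneg (Nat.cast_nonneg m) (psi_nonneg m), ?_, ?_⟩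
  · intro h
    apply not_summable
    rw [← summable_nat_add_iff 1]
    refine h.congr (fun m => ?_)
    have : (((m + 1 : ℕ) : ℝ)) ≠ 0 := by positivity
    field_simp
  · filter_upwards [ae_ev, ae_ne] with θ h1 h2 hθ
    obtain ⟨hθ0, hθ1⟩ := hθ
    obtain ⟨i0, hi0⟩ := eventually_atTop.1 h1
    obtain ⟨j0, hj0⟩ := exists_nat_ge (2 / (1 - θ))
    set n := i0 + j0 + 2 with hn
    refine ((Set.finite_Iic (2 ^ (n * n))).prod (Set.finite_Iic (2 ^ (n * n) + 1))).subset ?_
    rintro ⟨a, b⟩ ⟨ha, hb, h⟩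
    simp only at ha hb h
    have ha' : (1 : ℝ) ≤ a := by exact_mod_cast ha
    rw [mul_div_cancel_left₀ _ (by linarith)] at h
    have hle : a ≤ 2 ^ (n * n) := by
      by_contra hcon
      push Not at hcon
      have h3 := le_idx n a hcon.le
      have h4 := idx_le a (by omega)
      have h5 : 1 ≤ 2 ^ (n * n) := Nat.one_le_two_pow
      rw [psi] at h
      split_ifs at h with hc
      · obtain ⟨i, hi⟩ : ∃ i, idx a = i + 2 := ⟨idx a - 2, by omega⟩
        rw [hi] at h hc h4 h3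
        apply hi0 i (by omega)
        refine ⟨hθ1, b, hb, ?_⟩
        set A : ℕ := 2 ^ ((i + 2) * (i + 2)) with hA
        have hA0 : (0 : ℝ) < A := by positivity
        have hAa : (A : ℝ) ≤ a := by exact_mod_cast h4
        have haA : (a : ℝ) ≤ A + 2 ^ (i + 2) := by exact_mod_cast hc.le
        have e1 : (A : ℝ) ^ θ ≤ (a : ℝ) ^ θ := Real.rpow_le_rpow hA0.le hAa hθ0.le
        have e2 : (a : ℝ) ^ θ ≤ (A : ℝ) ^ θ * (a / A) := by
          have e3 : (a : ℝ) ^ θ = (A : ℝ) ^ θ * ((a : ℝ) / A) ^ θ := by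
            rw [← Real.mul_rpow hA0.le (by positivity)]
            congr 1
            field_simp
          rw [e3]
          apply mul_le_mul_of_nonneg_left _ (by positivity)
          have := Real.rpow_le_rpow_of_exponent_le (x := (a : ℝ) / A)
            ((one_le_div hA0).2 hAa) hθ1.le
          rwa [Real.rpow_one] at this
        have e4 : (A : ℝ) ^ θ / A ≤ (1 / 2) ^ (i + 2) * (1 / 2) ^ (i + 2) := by
          rw [← Real.rpow_sub_one hA0.ne', hA]
          push_cast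
          rw [← Real.rpow_natCast, ← Real.rpow_mul (by norm_num), ← pow_add, one_div, inv_pow,
            ← Real.rpow_natCast, ← Real.rpow_neg (by norm_num)]
          apply Real.rpow_le_rpow_of_exponent_le (by norm_num)
          have e5 : (j0 : ℝ) ≤ i + 2 := by
            have : j0 ≤ i + 2 := by omega
            exact_mod_cast this
          rw [div_le_iff₀ (by linarith)] at hj0
          have e6 : 2 ≤ ((i : ℝ) + 2) * (1 - θ) := by nlinarith
          push_cast
          nlinarith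
        have e7 : (a : ℝ) ^ θ - (A : ℝ) ^ θ ≤ (1 / 2) ^ (i + 2) := by
          have e8 : (A : ℝ) ^ θ * (a / A) - (A : ℝ) ^ θ = (A : ℝ) ^ θ / A * (a - A) := by
            field_simp
          have e9 : (A : ℝ) ^ θ / A * (a - A) ≤
              ((1 / 2) ^ (i + 2) * (1 / 2) ^ (i + 2)) * 2 ^ (i + 2) :=
            mul_le_mul e4 (by linarith) (by linarith) (by positivity)
          have e10 : ((1 / 2 : ℝ) ^ (i + 2) * (1 / 2) ^ (i + 2)) * 2 ^ (i + 2) =
              (1 / 2) ^ (i + 2) := by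
            rw [mul_assoc, ← mul_pow]; norm_num
          linarith
        rw [abs_le] at h ⊢
        constructor <;> linarith [h.1, h.2]
      · exact h2 a b (by omega) (sub_eq_zero.1 (abs_nonpos_iff.1 h))
    refine ⟨hle, ?_⟩
    have h6 : (a : ℝ) ^ θ ≤ a := by
      have := Real.rpow_le_rpow_of_exponent_le ha' hθ1.le
      rwa [Real.rpow_one] at this
    have h7 := psi_le a
    rw [abs_le] at h
    have h8 : (b : ℝ) ≤ a + 1 := by linarith [h.1]
    have h9 : b ≤ a + 1 := by exact_mod_cast h8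
    show b ≤ 2 ^ (n * n) + 1
    omega

end Pool.Agent.Results.MP_33ac70_nt.Counter
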